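import Pool.Agent.Run7.h104.AC.Defs

/-!
# Pieces CAH, CAL, CALC, AVG of the project AC (MP_0b1b3b_an)
-/

set_option autoImplicit false

namespace Pool.Agent.Run7.h984.AC

open MeasureTheory Complex Set Filter Topology Metric
open Pool.Agent.Run7.h104.AC

/-- Mean value property of the real part. -/
theorem avg_re {ρ r : ℝ} {g : ℂ → ℂ} (hr : 0 < r) (hρ : r < ρ)
    (hg : DifferentiableOn ℂ g (ball 0 ρ)) :
    Real.circleAverage (fun z => (g z).re) 0 r = (g 0).re := by
  have hsub : closedBall (0 : ℂ) r ⊆ ball 0 ρ := closedBall_subset_ball hρ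
  have hd : DiffContOnCl ℂ g (ball 0 |r|) := by
    rw [abs_of_pos hr]
    refine ⟨hg.mono (ball_subset_ball hρ.le), ?_⟩
    rw [closure_ball _ hr.ne']
    exact hg.continuousOn.mono hsub
  have hc : CircleIntegrable g 0 r := by
    apply ContinuousOn.circleIntegrable hr.le
    exact hg.continuousOn.mono (sphere_subset_closedBall.trans hsub)
  have h1 := Complex.reCLM.circleAverage_comp_comm hc
  rw [hd.circleAverage] at h1
  exact h1

theorem t_CAH : S_CAH := by
  intro ρ r H hr hρ hH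
  have h0 : ball (0 : ℂ) ρ ∈ 𝓝 (0 : ℂ) := ball_mem_nhds _ (hr.trans hρ)
  have hds : DifferentiableOn ℂ (dslope H 0) (ball 0 ρ) :=
    (Complex.differentiableOn_dslope h0).2 hH
  have hcongr : Set.EqOn (fun z => ‖1 + z‖ ^ 2 * (H z).re)
      (fun z => ((1 + (r : ℂ) ^ 2 + z) * H z + (r : ℂ) ^ 2 * dslope H 0 z +
        (starRingEnd ℂ) (H 0) * z).re) (sphere 0 |r|) := by
    intro z hz
    rw [abs_of_pos hr, mem_sphere_zero_iff_norm] at hz
    have hz0 : z ≠ 0 := by
      rw [← norm_pos_iff, hz]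
      exact hr
    have hzz : (r : ℂ) ^ 2 = (starRingEnd ℂ) z * z := by
      rw [← Complex.normSq_eq_conj_mul_self, Complex.normSq_eq_norm_sq, hz]
      push_cast
      rfl
    have e1 : (r : ℂ) ^ 2 * dslope H 0 z = (starRingEnd ℂ) z * (H z - H 0) := by
      rw [dslope_of_ne _ hz0, slope_def_field, sub_zero, hzz]
      field_simp
    have e2 : ‖1 + z‖ ^ 2 = 1 + r ^ 2 + 2 * z.re := by
      rw [← Complex.normSq_eq_norm_sq, ← hz, ← Complex.normSq_eq_norm_sq, Complex.normSq_apply,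
        Complex.normSq_apply]
      simp
      ring
    beta_reduce
    rw [e1, e2]
    have e3 : ((r : ℂ) ^ 2) = ((r ^ 2 : ℝ) : ℂ) := by push_cast; rfl
    rw [e3]
    simp only [Complex.add_re, Complex.mul_re, Complex.add_im, Complex.one_re, Complex.one_im,
      Complex.ofReal_re, Complex.ofReal_im, Complex.conj_re, Complex.conj_im, Complex.sub_re,
      Complex.sub_im]
    ring
  rw [Real.circleAverage_congr_sphere hcongr]
  rw [avg_re hr hρ (g := fun z => (1 + (r : ℂ) ^ 2 + z) * H z + (r : ℂ) ^ 2 * dslope H 0 z +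
        (starRingEnd ℂ) (H 0) * z)]
  · have e3 : ((r : ℂ) ^ 2) = ((r ^ 2 : ℝ) : ℂ) := by push_cast; rfl
    rw [e3, dslope_same]
    simp only [Complex.add_re, Complex.mul_re, Complex.add_im, Complex.one_re, Complex.one_im,
      Complex.ofReal_re, Complex.ofReal_im, add_zero, mul_zero, Complex.zero_re, Complex.zero_im,
      zero_mul, sub_zero]
  · refine DifferentiableOn.add (DifferentiableOn.add (DifferentiableOn.mul ?_ hH)
      (hds.const_mul _)) ?_
    · exact ((differentiable_const _).add differentiable_id).differentiableOn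
    · exact (differentiable_id.const_mul _).differentiableOn

theorem one_sub_slit {w : ℂ} (hw : ‖w‖ < 1) : 1 - w ∈ Complex.slitPlane := by
  left
  have := (Complex.abs_re_le_norm w).trans_lt hw
  rw [abs_lt] at this
  simp
  linarith

/-- `log ‖c‖ + log (1 - k z)`. -/
theorem hasLog {ρ : ℝ} (k : ℂ) (hk : ∀ z ∈ ball (0 : ℂ) ρ, ‖k * z‖ < 1) (c : ℝ) :
    DifferentiableOn ℂ (fun z => (c : ℂ) + Complex.log (1 - k * z)) (ball 0 ρ) := by
  intro z hz
  apply DifferentiableAt.differentiableWithinAt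
  have h1 : DifferentiableAt ℂ (fun z : ℂ => 1 - k * z) z := by fun_prop
  exact (differentiableAt_const _).add (h1.clog (one_sub_slit (hk z hz)))

theorem deriv_log0 (k : ℂ) (c : ℝ) :
    deriv (fun z => (c : ℂ) + Complex.log (1 - k * z)) 0 = -k := by
  have h1 : HasDerivAt (fun z : ℂ => 1 - k * z) (-k) 0 := by
    have := ((hasDerivAt_id (0 : ℂ)).const_mul k).const_sub 1
    simpa using this
  have h2 := h1.clog (by simp)
  have h3 := h2.const_add (c : ℂ)
  rw [h3.deriv]
  simp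

theorem avg_log {ρ r : ℝ} (hr : 0 < r) (hρ : r < ρ) (k : ℂ)
    (hk : ∀ z ∈ ball (0 : ℂ) ρ, ‖k * z‖ < 1) (c : ℝ) :
    Real.circleAverage (fun z => ‖1 + z‖ ^ 2 * (c + Real.log ‖1 - k * z‖)) 0 r
      = (1 + r ^ 2) * c - r ^ 2 * k.re := by
  have h := t_CAH ρ r (fun z => (c : ℂ) + Complex.log (1 - k * z)) hr hρ (hasLog k hk c)
  rw [deriv_log0] at h
  simp only [Complex.add_re, Complex.ofReal_re, Complex.log_re, mul_zero, sub_zero, norm_one,
    Real.log_one, add_zero, Complex.neg_re] at h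
  rw [h]
  ring

theorem t_CAL (_h : S_CAH) : S_CAL := by
  intro a r ha hr
  have ha' : 0 < ‖a‖ := norm_pos_iff.2 ha
  constructor
  · intro hra
    have hk : ∀ z ∈ ball (0 : ℂ) ‖a‖, ‖a⁻¹ * z‖ < 1 := by
      intro z hz
      rw [mem_ball_zero_iff] at hz
      rw [norm_mul, norm_inv, inv_mul_lt_iff₀ ha', mul_one]
      exact hz
    have h := avg_log hr hra a⁻¹ hk (Real.log ‖a‖)
    have hcongr : Set.EqOn (fun z => ‖1 + z‖ ^ 2 * Real.log ‖z - a‖)
        (fun z => ‖1 + z‖ ^ 2 * (Real.log ‖a‖ + Real.log ‖1 - a⁻¹ * z‖)) (sphere 0 |r|) := by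
      intro z hz
      rw [abs_of_pos hr, mem_sphere_zero_iff_norm] at hz
      have e1 : ‖z - a‖ = ‖a‖ * ‖1 - a⁻¹ * z‖ := by
        rw [← norm_mul, norm_sub_rev]
        congr 1
        field_simp
      have e2 : ‖1 - a⁻¹ * z‖ ≠ 0 := by
        intro h0
        rw [h0, mul_zero, norm_eq_zero, sub_eq_zero] at e1
        rw [← e1] at hra
        linarith
      show ‖1 + z‖ ^ 2 * Real.log ‖z - a‖ = _
      rw [e1, Real.log_mul ha'.ne' e2]
    rw [Real.circleAverage_congr_sphere hcongr, h, one_div]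
  · intro har
    have hρ : r < r ^ 2 / ‖a‖ := by
      rw [lt_div_iff₀ ha']
      nlinarith
    have hk : ∀ z ∈ ball (0 : ℂ) (r ^ 2 / ‖a‖), ‖(starRingEnd ℂ a / (r : ℂ) ^ 2) * z‖ < 1 := by
      intro z hz
      rw [mem_ball_zero_iff, lt_div_iff₀ ha'] at hz
      rw [norm_mul, norm_div, norm_pow, RCLike.norm_conj, Complex.norm_real,
        Real.norm_of_nonneg hr.le, div_mul_eq_mul_div, div_lt_one (by positivity)]
      linarith
    have h := avg_log hr hρ (starRingEnd ℂ a / (r : ℂ) ^ 2) hk (Real.log r)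
    have hcongr : Set.EqOn (fun z => ‖1 + z‖ ^ 2 * Real.log ‖z - a‖)
        (fun z => ‖1 + z‖ ^ 2 * (Real.log r +
          Real.log ‖1 - (starRingEnd ℂ a / (r : ℂ) ^ 2) * z‖)) (sphere 0 |r|) := by
      intro z hz
      rw [abs_of_pos hr, mem_sphere_zero_iff_norm] at hz
      have hz0 : z ≠ 0 := by
        rw [← norm_pos_iff, hz]
        exact hr
      have hzz : (r : ℂ) ^ 2 = (starRingEnd ℂ) z * z := by
        rw [← Complex.normSq_eq_conj_mul_self, Complex.normSq_eq_norm_sq, hz]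
        push_cast
        rfl
      have hcz : (starRingEnd ℂ) z ≠ 0 := by simpa using hz0
      have e1 : ‖z - a‖ = r * ‖1 - (starRingEnd ℂ a / (r : ℂ) ^ 2) * z‖ := by
        have e3 : 1 - (starRingEnd ℂ a / (r : ℂ) ^ 2) * z =
            (starRingEnd ℂ) (z - a) / (starRingEnd ℂ) z := by
          rw [hzz, map_sub]
          field_simp
        rw [e3, norm_div, RCLike.norm_conj, RCLike.norm_conj, hz]
        field_simp
      have e2 : ‖1 - (starRingEnd ℂ a / (r : ℂ) ^ 2) * z‖ ≠ 0 := by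
        intro h0
        rw [h0, mul_zero, norm_eq_zero, sub_eq_zero] at e1
        rw [← e1] at har
        linarith
      show ‖1 + z‖ ^ 2 * Real.log ‖z - a‖ = _
      rw [e1, Real.log_mul hr.ne' e2]
    rw [Real.circleAverage_congr_sphere hcongr, h]
    have e4 : (starRingEnd ℂ a / (r : ℂ) ^ 2).re = a.re / r ^ 2 := by
      have : (r : ℂ) ^ 2 = ((r ^ 2 : ℝ) : ℂ) := by push_cast; rfl
      rw [this, Complex.div_ofReal_re, Complex.conj_re]
    rw [e4]
    field_simp

theorem t_CALC : S_CALC := by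
  intro ρ x hρ hρ1 hx
  have hderiv : ∀ r ∈ Set.uIcc ρ 1, HasDerivAt
      (fun r : ℝ => (r - r⁻¹) * Real.log (r / ρ) - r - r⁻¹ + x * r⁻¹ + x * r / ρ ^ 2)
      ((r ^ 2)⁻¹ * ((1 + r ^ 2) * Real.log (r / ρ) - x + r ^ 2 * x / ρ ^ 2)) r := by
    intro r hr
    rw [Set.uIcc_of_le hρ1.le] at hr
    have hr0 : 0 < r := hρ.trans_le hr.1
    have h1 : HasDerivAt (fun r : ℝ => r⁻¹) (-(r ^ 2)⁻¹) r := hasDerivAt_inv hr0.ne'
    have h2 : HasDerivAt (fun r : ℝ => Real.log (r / ρ)) (1 / ρ / (r / ρ)) r :=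
      ((hasDerivAt_id r).div_const ρ).log (by positivity)
    have h3 := ((hasDerivAt_id r).sub h1).mul h2
    have h4 := ((h3.sub (hasDerivAt_id r)).sub h1).add (h1.const_mul x)
    have h5 := h4.add (((hasDerivAt_id r).const_mul x).div_const (ρ ^ 2))
    refine (h5.congr_deriv ?_)
    simp only [Pi.sub_apply, id_eq]
    field_simp
    ring
  have hcont : ContinuousOn (fun r : ℝ => (r ^ 2)⁻¹ * ((1 + r ^ 2) * Real.log (r / ρ) - x +
      r ^ 2 * x / ρ ^ 2)) (Set.uIcc ρ 1) := by
    rw [Set.uIcc_of_le hρ1.le]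
    have hne : ∀ r ∈ Set.Icc ρ 1, r ≠ 0 := fun r hr => (hρ.trans_le hr.1).ne'
    have hlog : ContinuousOn (fun r : ℝ => Real.log (r / ρ)) (Set.Icc ρ 1) := by
      apply ContinuousOn.log
      · fun_prop
      · intro r hr
        exact div_ne_zero (hne r hr) hρ.ne'
    have hinv : ContinuousOn (fun r : ℝ => (r ^ 2)⁻¹) (Set.Icc ρ 1) :=
      ContinuousOn.inv₀ (by fun_prop) (fun r hr => pow_ne_zero 2 (hne r hr))
    refine hinv.mul (((ContinuousOn.mul (by fun_prop) hlog).sub continuousOn_const).add ?_)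
    fun_prop
  rw [intervalIntegral.integral_eq_sub_of_hasDerivAt hderiv hcont.intervalIntegrable]
  have h1 : (1 - (1 : ℝ)⁻¹) * Real.log (1 / ρ) - 1 - 1⁻¹ + x * 1⁻¹ + x * 1 / ρ ^ 2 -
      ((ρ - ρ⁻¹) * Real.log (ρ / ρ) - ρ - ρ⁻¹ + x * ρ⁻¹ + x * ρ / ρ ^ 2) =
      (1 - ρ) ^ 2 * (ρ + x) / ρ ^ 2 := by
    rw [div_self hρ.ne', Real.log_one]
    field_simp
    ring
  rw [h1]
  have := (abs_le.1 hx).1
  exact div_nonneg (mul_nonneg (sq_nonneg _) (by linarith)) (sq_nonneg _)

theorem two_add_slit {z : ℂ} (hz : z ∈ ball (0 : ℂ) 2) : 1 + z / 2 ∈ Complex.slitPlane := by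
  rw [mem_ball_zero_iff] at hz
  have : ‖-(z / 2)‖ < 1 := by
    rw [norm_neg, norm_div]
    simp
    linarith
  have h := one_sub_slit this
  rwa [sub_neg_eq_add] at h

theorem t_AVG : S_AVG := by
  have hCd : ∀ ζ : ℂ, ‖ζ‖ = 1 → ‖Cd ζ‖ = ‖1 + ζ / 2‖ := by
    intro ζ hζ
    have : Cd ζ = ζ * (1 + ζ / 2) := by
      unfold Cd; ring
    rw [this, norm_mul, hζ, one_mul]
  refine ⟨?_, ?_, ?_⟩
  · intro ζ hζ
    rw [hCd ζ hζ]
    have h2 : ‖ζ / 2‖ = 1 / 2 := by
      rw [norm_div, hζ]; simp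
    constructor
    · have := norm_sub_norm_le (1 : ℂ) (-(ζ / 2))
      rw [norm_neg, h2, sub_neg_eq_add, norm_one] at this
      linarith
    · have := norm_add_le (1 : ℂ) (ζ / 2)
      rw [h2, norm_one] at this
      linarith
  · have hcongr : Set.EqOn (fun ζ => Real.log ‖Cd ζ‖)
        (fun ζ => (Complex.log (1 + ζ / 2)).re) (sphere 0 |1|) := by
      intro z hz
      rw [abs_one, mem_sphere_zero_iff_norm] at hz
      beta_reduce
      rw [hCd z hz, Complex.log_re]
    rw [Real.circleAverage_congr_sphere hcongr,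
      avg_re (ρ := 2) (g := fun ζ => Complex.log (1 + ζ / 2)) one_pos one_lt_two]
    · simp
    · intro z hz
      apply DifferentiableAt.differentiableWithinAt
      have h1 : DifferentiableAt ℂ (fun z : ℂ => 1 + z / 2) z := by fun_prop
      exact h1.clog (two_add_slit hz)
  · have hcongr : Set.EqOn (fun ζ => (1 / Cd ζ).re)
        (fun ζ => (ζ - 1 / (ζ + 2)).re) (sphere 0 |1|) := by
      intro z hz
      rw [abs_one, mem_sphere_zero_iff_norm] at hz
      have hz0 : z ≠ 0 := by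
        rw [← norm_pos_iff, hz]; norm_num
      have hz2 : z + 2 ≠ 0 := by
        intro h
        have : z = -2 := eq_neg_of_add_eq_zero_left h
        rw [this] at hz
        simp at hz
      have e1 : 1 / Cd z = 1 / z - 1 / (z + 2) := by
        have h3 : Cd z = z * (z + 2) / 2 := by
          unfold Cd; ring
        rw [h3]
        field_simp
        ring
      have e2 : (1 / z).re = z.re := by
        rw [one_div, Complex.inv_re, Complex.normSq_eq_norm_sq, hz]
        simp
      show (1 / Cd z).re = (z - 1 / (z + 2)).re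
      rw [e1, Complex.sub_re, Complex.sub_re, e2]
    rw [Real.circleAverage_congr_sphere hcongr,
      avg_re (ρ := 2) (g := fun ζ => ζ - 1 / (ζ + 2)) one_pos one_lt_two]
    · simp
      norm_num
    · intro z hz
      apply DifferentiableAt.differentiableWithinAt
      have hz2 : z + 2 ≠ 0 := by
        intro h
        have : z = -2 := eq_neg_of_add_eq_zero_left h
        rw [this, mem_ball_zero_iff] at hz
        simp at hz
      have h1 : DifferentiableAt ℂ (fun z : ℂ => z + 2) z := by fun_prop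
      exact differentiableAt_id.sub ((differentiableAt_const _).div h1 hz2)

end Pool.Agent.Run7.h984.AC
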